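import Mathlib

/-!
# Infinitely many `n` solve the abcd equation but not its integer form
-/

namespace Pool.Agent.Results.MP_2bef4d_nt.AbcdNotIntegerForm

/-- The abcd equation `n = (a/b + b/a)(c/d + d/c)` is solvable in positive integers. -/
def AbcdSolvable (n : ℕ) : Prop :=
  ∃ a b c d : ℕ, 0 < a ∧ 0 < b ∧ 0 < c ∧ 0 < d ∧
    (n : ℚ) = ((a : ℚ) / b + (b : ℚ) / a) * ((c : ℚ) / d + (d : ℚ) / c)

/-- The integer form `n = (a + 1/a)(b + 1/b)` is solvable in positive integers. -/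
def IntegerFormSolvable (n : ℕ) : Prop :=
  ∃ a b : ℕ, 0 < a ∧ 0 < b ∧ (n : ℚ) = ((a : ℚ) + 1 / a) * ((b : ℚ) + 1 / b)

/-- Vieta jumping: `k x y = x² + y² + 1` forces `k = 3`. -/
lemma vieta (N : ℕ) : ∀ x y k : ℤ, 0 < x → 0 < y → x + y ≤ N →
    x ^ 2 + y ^ 2 + 1 = k * x * y → k = 3 := by
  induction N with
  | zero => intro x y k hx hy h; push_cast at h; omega
  | succ N ih =>
    intro x y k hx hy hN h
    -- a version with `y ≤ x`
    have main : ∀ x y : ℤ, 0 < x → 0 < y → x + y ≤ (N : ℤ) + 1 → y ≤ x →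
        x ^ 2 + y ^ 2 + 1 = k * x * y → k = 3 := by
      intro x y hx hy hN hyx h
      rcases eq_or_lt_of_le hyx with rfl | hlt
      · have h1 : y ^ 2 * (k - 2) = 1 := by linear_combination -h
        have h2 : y ^ 2 ∣ 1 := ⟨_, h1.symm⟩
        have h3 : y ^ 2 = 1 := by
          have := Int.le_of_dvd one_pos h2
          have h4 : 0 < y ^ 2 := by positivity
          omega
        rw [h3] at h1
        omega
      · have hz : x * (k * y - x) = y ^ 2 + 1 := by linear_combination -h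
        have hzpos : 0 < k * y - x := by
          by_contra hneg
          have h1 : k * y - x ≤ 0 := not_lt.1 hneg
          have : x * (k * y - x) ≤ 0 := mul_nonpos_of_nonneg_of_nonpos hx.le h1
          nlinarith [sq_nonneg y]
        have hzle : k * y - x ≤ y := by
          by_contra hneg
          have h1 : y + 1 ≤ k * y - x := by omega
          have h2 : (y + 1) * (y + 1) ≤ x * (k * y - x) :=
            mul_le_mul (by omega) h1 (by omega) (by omega)
          nlinarith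
        refine ih y (k * y - x) k hy hzpos ?_ ?_
        · omega
        · linear_combination h
    push_cast at hN
    rcases le_total y x with hyx | hxy
    · exact main x y hx hy hN hyx h
    · exact main y x hy hx (by omega) hxy (by linear_combination h)

/-- If the integer form is solvable for `n` then `n - 4` is a perfect square. -/
lemma sub_four_sq {n : ℕ} (h : IntegerFormSolvable n) : ∃ s : ℤ, (n : ℤ) - 4 = s ^ 2 := by
  obtain ⟨a, b, ha, hb, h⟩ := h
  have haq : (a : ℚ) ≠ 0 := by positivity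
  have hbq : (b : ℚ) ≠ 0 := by positivity
  have h1 : (n : ℚ) * a * b = ((a : ℚ) ^ 2 + 1) * ((b : ℚ) ^ 2 + 1) := by
    rw [h]
    field_simp
  have h2 : (n : ℤ) * a * b = ((a : ℤ) ^ 2 + 1) * ((b : ℤ) ^ 2 + 1) := by
    exact_mod_cast h1
  have h3 : (a : ℤ) ^ 2 + (b : ℤ) ^ 2 + 1 = ((n : ℤ) - a * b) * a * b := by
    linear_combination -h2
  have h4 : (n : ℤ) - a * b = 3 :=
    vieta (a + b) a b _ (by exact_mod_cast ha) (by exact_mod_cast hb) (by push_cast; rfl) h3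
  refine ⟨(a : ℤ) - b, ?_⟩
  rw [h4] at h3
  linear_combination h4 - h3

/-- The invariant of two adjacent terms of a sequence with `u w = v⁴ + 1`. -/
structure Adj (c d : ℕ) : Prop where
  pos : 0 < c
  lt : c < d
  cop : Nat.Coprime c d
  dvd1 : c ∣ d ^ 4 + 1
  dvd2 : d ∣ c ^ 4 + 1

/-- next pair -/
def nxt (p : ℕ × ℕ) : ℕ × ℕ := (p.2, (p.2 ^ 4 + 1) / p.1)

lemma nxt_mul {p : ℕ × ℕ} (h : Adj p.1 p.2) : (nxt p).2 * p.1 = p.2 ^ 4 + 1 :=
  Nat.div_mul_cancel h.dvd1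

lemma Adj.next {p : ℕ × ℕ} (h : Adj p.1 p.2) : Adj (nxt p).1 (nxt p).2 := by
  have hm := nxt_mul h
  obtain ⟨c, d⟩ := p
  simp only [nxt] at *
  set e := (d ^ 4 + 1) / c with he
  have hd : 0 < d := lt_trans h.pos h.lt
  refine ⟨hd, ?_, ?_, ?_, ?_⟩
  · by_contra hle
    have h1 : e ≤ d := not_lt.1 hle
    have h2 : e * c ≤ d * d := Nat.mul_le_mul h1 h.lt.le
    nlinarith [Nat.pow_le_pow_right hd (show 2 ≤ 4 by norm_num)]
  · have : Nat.gcd d e ∣ 1 := by
      have h1 : Nat.gcd d e ∣ d ^ 4 + 1 := by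
        rw [← hm]; exact Dvd.dvd.mul_right (Nat.gcd_dvd_right d e) c
      have h2 : Nat.gcd d e ∣ d ^ 4 := (Nat.gcd_dvd_left d e).trans (dvd_pow_self d (by norm_num))
      exact (Nat.dvd_add_right h2).1 h1
    exact Nat.dvd_one.1 this
  · have hc : Nat.Coprime d (c ^ 4) := (h.cop.symm).pow_right 4
    have key : d ∣ (e ^ 4 + 1) * c ^ 4 := by
      have h1 : (e ^ 4 + 1) * c ^ 4 = (d ^ 4 + 1) ^ 4 + c ^ 4 := by
        rw [← hm]; ring
      have h2 : (d ^ 4 + 1) ^ 4 + c ^ 4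
          = d * (d ^ 3 * (d ^ 12 + 4 * d ^ 8 + 6 * d ^ 4 + 4)) + (c ^ 4 + 1) := by ring
      rw [h1, h2]
      exact dvd_add (dvd_mul_right _ _) h.dvd2
    exact hc.dvd_of_dvd_mul_right key
  · exact ⟨c, hm.symm⟩

/-- Two adjacent terms give a solution of the abcd equation. -/
lemma abcd_of_adj {c d : ℕ} (h : Adj c d) :
    ∃ n : ℕ, n * (c * d) = (c ^ 2 + d ^ 2) ^ 2 + 1 ∧ AbcdSolvable n := by
  have hd : 0 < d := lt_trans h.pos h.lt
  have hc := h.pos
  have h1 : c ∣ (c ^ 2 + d ^ 2) ^ 2 + 1 := by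
    have : (c ^ 2 + d ^ 2) ^ 2 + 1 = c * (c * (c ^ 2 + 2 * d ^ 2)) + (d ^ 4 + 1) := by ring
    rw [this]; exact dvd_add (dvd_mul_right _ _) h.dvd1
  have h2 : d ∣ (c ^ 2 + d ^ 2) ^ 2 + 1 := by
    have : (c ^ 2 + d ^ 2) ^ 2 + 1 = d * (d * (d ^ 2 + 2 * c ^ 2)) + (c ^ 4 + 1) := by ring
    rw [this]; exact dvd_add (dvd_mul_right _ _) h.dvd2
  obtain ⟨n, hn⟩ := Nat.Coprime.mul_dvd_of_dvd_of_dvd h.cop h1 h2
  refine ⟨n, by rw [hn]; ring, ?_⟩
  refine ⟨c ^ 2 + d ^ 2, 1, c, d, by positivity, one_pos, hc, hd, ?_⟩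
  have hcq : (c : ℚ) ≠ 0 := by positivity
  have hdq : (d : ℚ) ≠ 0 := by positivity
  have hq : ((c : ℚ) ^ 2 + (d : ℚ) ^ 2) ≠ 0 := by positivity
  have hn' : ((c : ℚ) ^ 2 + (d : ℚ) ^ 2) ^ 2 + 1 = c * d * n := by exact_mod_cast hn
  push_cast
  field_simp
  linear_combination -hn'

/-- the sequence of pairs starting from `(2, 17)` -/
def sq (k : ℕ) : ℕ × ℕ := nxt^[k] (2, 17)

lemma sq_adj (k : ℕ) : Adj (sq k).1 (sq k).2 := by
  induction k with
  | zero =>
    simp only [sq, Function.iterate_zero, id_eq]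
    exact ⟨by norm_num, by norm_num, by norm_num, by norm_num, by norm_num⟩
  | succ k ih =>
    have : sq (k + 1) = nxt (sq k) := by
      simp only [sq, Function.iterate_succ_apply']
    rw [this]
    exact ih.next

lemma sq_succ (k : ℕ) : sq (k + 1) = nxt (sq k) := by
  simp only [sq, Function.iterate_succ_apply']

lemma sq_ge (k : ℕ) : k < (sq k).1 := by
  induction k with
  | zero => simp [sq]
  | succ k ih =>
    rw [sq_succ]
    have := (sq_adj k).lt
    simp only [nxt]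
    omega

instance : Fact (Nat.Prime 19) := ⟨by norm_num⟩

/-- the pairs modulo 19 -/
def nx19 (p : ZMod 19 × ZMod 19) : ZMod 19 × ZMod 19 := (p.2, (p.2 ^ 4 + 1) * p.1⁻¹)

lemma four_ne : ∀ z : ZMod 19, z ^ 4 + 1 ≠ 0 := by decide

lemma cast_nxt {p : ℕ × ℕ} (h : Adj p.1 p.2) :
    (((nxt p).1 : ZMod 19), ((nxt p).2 : ZMod 19)) = nx19 ((p.1 : ZMod 19), (p.2 : ZMod 19)) := by
  have hm := nxt_mul h
  have h1 : ((nxt p).2 : ZMod 19) * (p.1 : ZMod 19) = (p.2 : ZMod 19) ^ 4 + 1 := by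
    exact_mod_cast congrArg (Nat.cast : ℕ → ZMod 19) hm
  have h0 : (p.1 : ZMod 19) ≠ 0 := by
    intro h0
    rw [h0, mul_zero] at h1
    exact four_ne _ h1.symm
  unfold nx19
  simp only [Prod.mk.injEq]
  refine ⟨rfl, ?_⟩
  rw [← h1, mul_assoc, mul_inv_cancel₀ h0, mul_one]

lemma sq19 (k : ℕ) : (((sq k).1 : ZMod 19), ((sq k).2 : ZMod 19)) = nx19^[k] (2, 17) := by
  induction k with
  | zero => simp [sq]
  | succ k ih =>
    rw [sq_succ, cast_nxt (sq_adj k), ih, Function.iterate_succ_apply']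

lemma iter8 : nx19^[8] ((2, 17) : ZMod 19 × ZMod 19) = (2, 17) := by decide +kernel

lemma iter8k (j : ℕ) : nx19^[8 * j] ((2, 17) : ZMod 19 × ZMod 19) = (2, 17) := by
  rw [Function.iterate_mul]
  exact Function.iterate_fixed iter8 j

lemma nonsq : ∀ z : ZMod 19, z * (2 * 17) = (2 ^ 2 + 17 ^ 2) ^ 2 + 1 →
    ∀ s : ZMod 19, z - 4 ≠ s ^ 2 := by decide

theorem result : {n : ℕ | 0 < n ∧ AbcdSolvable n ∧ ¬ IntegerFormSolvable n}.Infinite := by
  apply Set.infinite_of_forall_exists_gt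
  intro N
  obtain ⟨n, hn, hsol⟩ := abcd_of_adj (sq_adj (8 * N))
  have hadj := sq_adj (8 * N)
  have hge := sq_ge (8 * N)
  have hlt := hadj.lt
  have h19 := sq19 (8 * N)
  rw [iter8k] at h19
  simp only [Prod.mk.injEq] at h19
  set c := (sq (8 * N)).1
  set d := (sq (8 * N)).2
  have hnN : N < n := by
    by_contra hle
    have h1 : n ≤ c := by omega
    have h2 : n * (c * d) ≤ c * (c * d) := Nat.mul_le_mul_right _ h1
    have h3 : c * (c * d) ≤ (c ^ 2 + d ^ 2) ^ 2 := by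
      have hc := hadj.pos
      have h4 : c * d ≤ c ^ 2 + d ^ 2 := by nlinarith [Nat.mul_le_mul hlt.le hlt.le]
      have h5 : c ≤ c ^ 2 + d ^ 2 := by nlinarith
      calc c * (c * d) ≤ (c ^ 2 + d ^ 2) * (c ^ 2 + d ^ 2) := Nat.mul_le_mul h5 h4
        _ = _ := by ring
    omega
  refine ⟨n, ⟨by omega, hsol, ?_⟩, hnN⟩
  intro hint
  obtain ⟨s, hs⟩ := sub_four_sq hint
  have hz : (n : ZMod 19) * (2 * 17) = (2 ^ 2 + 17 ^ 2) ^ 2 + 1 := by
    have := congrArg (Nat.cast : ℕ → ZMod 19) hn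
    push_cast at this
    rw [h19.1, h19.2] at this
    exact this
  refine nonsq _ hz (s : ZMod 19) ?_
  have := congrArg (Int.cast : ℤ → ZMod 19) hs
  push_cast at this
  exact this

end Pool.Agent.Results.MP_2bef4d_nt.AbcdNotIntegerForm
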